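import Pool.Agent.H.MP_7488b5_nt.A

set_option autoImplicit false

namespace Pool.Agent.Results.MP_7488b5_nt.Uniform

open Polynomial

variable {F : Type} [Field F]

/-- evaluation of `P ∈ F[T][X]` at a Laurent series in `1/T` (the series variable is `1/T`) -/
noncomputable def ev (x : LaurentSeries F) (P : F[X][X]) : LaurentSeries F :=
  P.eval₂ (aeval (HahnSeries.single (-1 : ℤ) (1 : F) : LaurentSeries F)).toRingHom x

open Classical in
/-- the absolute value -/
noncomputable def ab (x : LaurentSeries F) : ℝ :=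
  if x = 0 then 0 else (Nat.card F : ℝ) ^ (-x.order)

/-- the height -/
noncomputable def ht (P : F[X][X]) : ℝ :=
  ((P.support.sup fun i => Nat.card F ^ (P.coeff i).natDegree : ℕ) : ℝ)

/-- `w` is an admissible uniform exponent for approximation by algebraic series of degree `≤ n` -/
def Adm (n : ℕ) (ξ : LaurentSeries F) (w : ℝ) : Prop :=
  ∃ H₀ : ℝ, ∀ H : ℝ, H₀ < H → ∃ (α : LaurentSeries F) (P : F[X][X]),
    Irreducible P ∧ ev α P = 0 ∧ P.natDegree ≤ n ∧ ht P ≤ H ∧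
    0 < ab (ξ - α) ∧ ab (ξ - α) < (ht P)⁻¹ * H ^ (-w)

/-- the uniform exponent -/
noncomputable def uw (n : ℕ) (ξ : LaurentSeries F) : EReal :=
  sSup ((fun w : ℝ => (w : EReal)) '' {w | Adm n ξ w})

open Pool.Agent.H.MP_81ecdf_nt Pool.Agent.H.MP_7488b5_nt in
theorem result : ∃ ξ : LaurentSeries (ZMod 2),
    (∃ P : (ZMod 2)[X][X], Irreducible P ∧ P.natDegree = 4 ∧ ev ξ P = 0) ∧
    uw 2 ξ ≤ ((3 / 2 : ℝ) : EReal) ∧ uw 2 ξ ≠ 2 := by
  obtain ⟨ξ, h1, h2⟩ := exists_xi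
  have h3 : uw 2 ξ ≤ ((3 / 2 : ℝ) : EReal) := by
    refine sSup_le ?_
    rintro _ ⟨w, ⟨H₀, hw⟩, rfl⟩
    refine EReal.coe_le_coe_iff.mpr (not_lt.mp fun hlt => ?_)
    obtain ⟨j, hj⟩ := pow_unbounded_of_one_lt (max H₀ (w / (2 * w - 3))) (show (1 : ℝ) < 4 by norm_num)
    rw [max_lt_iff] at hj
    obtain ⟨hj1, hj2⟩ := hj
    obtain ⟨m, hm⟩ : ∃ m, 2 * 4 ^ j = m + 1 :=
      ⟨2 * 4 ^ j - 1, by have := Nat.one_le_pow j 4 (by norm_num); omega⟩
    have hm' : (m : ℝ) = 2 * 4 ^ j - 1 := by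
      have : ((2 * 4 ^ j : ℕ) : ℝ) = (m + 1 : ℕ) := by rw [hm]
      push_cast at this; linarith
    have h4 : (1 : ℝ) ≤ 4 ^ j := one_le_pow₀ (by norm_num)
    have h5 : (m : ℝ) < 2 ^ m := by exact_mod_cast Nat.lt_two_pow_self
    obtain ⟨α, P, hP, hα, hd, hH, -, hlt2⟩ := hw (2 ^ m) (by linarith)
    obtain ⟨i, hi, hsup⟩ := Finset.exists_mem_eq_sup P.support
      (support_nonempty.mpr hP.ne_zero) (fun i => Nat.card (ZMod 2) ^ (P.coeff i).natDegree)
    have hc : Nat.card (ZMod 2) = 2 := Nat.card_zmod 2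
    set e := (P.coeff i).natDegree with he
    have hht : ht P = 2 ^ e := by rw [ht, hsup, hc]; push_cast; rfl
    have he1 : ∀ k, (P.coeff k).natDegree ≤ e := by
      intro k
      by_cases hk : k ∈ P.support
      · have := Finset.le_sup (f := fun i => Nat.card (ZMod 2) ^ (P.coeff i).natDegree) hk
        rw [hsup, hc] at this
        exact (Nat.pow_le_pow_iff_right (by norm_num)).mp this
      · rw [notMem_support_iff.mp hk]; simp
    have he2 : e ≤ m := by
      rw [hht] at hH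
      exact (pow_le_pow_iff_right₀ (by norm_num)).mp hH
    obtain ⟨h6, h7⟩ := le_neg_order (key h1 h2 j hP hα hd he1 (by omega))
    rw [ab, if_neg h6, hc, hht, ← Real.rpow_natCast, ← Real.rpow_natCast, ← Real.rpow_intCast,
      ← Real.rpow_mul (by norm_num), ← Real.rpow_neg (by norm_num), Nat.cast_ofNat,
      ← Real.rpow_add (by norm_num), Real.rpow_lt_rpow_left_iff (by norm_num)] at hlt2
    have h8 : (-(3 * (4 : ℝ) ^ j + e)) ≤ ((-(ξ - α).order : ℤ) : ℝ) := by exact_mod_cast h7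
    rw [div_lt_iff₀ (by linarith)] at hj2
    rw [hm'] at hlt2
    nlinarith
  refine ⟨ξ, ⟨_, irr4, ?_, ?_⟩, h3, fun h => ?_⟩
  · compute_degree!
  · change eval₂ embH ξ _ = 0
    simp only [eval₂_add, eval₂_mul, eval₂_C, eval₂_X, eval₂_pow, eval₂_one, embH_apply]
    exact h1
  · rw [h] at h3
    have : ((2 : ℝ) : EReal) ≤ ((3 / 2 : ℝ) : EReal) := h3
    rw [EReal.coe_le_coe_iff] at this
    norm_num at this

end Pool.Agent.Results.MP_7488b5_nt.Uniform
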